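import Mathlib
import Pool.Agent.COG.Disj

open Finset
open scoped Classical

namespace Pool.Agent.Results.MP_4fa23e_co.Cographs

/-- The class of `{P_t, F}`-free graphs is polynomially chi-bounded: there are `C` and `g` such
that every finite graph `G` without an induced `P_t` and without an induced `F` satisfies
`χ(G) ≤ C ω(G) ^ g`. -/
def PolyBounded (t : ℕ) {W : Type} (F : SimpleGraph W) : Prop :=
  ∃ C g : ℕ, ∀ (V : Type) [Fintype V] (G : SimpleGraph V),
    IsEmpty (SimpleGraph.pathGraph t ↪g G) → IsEmpty (F ↪g G) →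
      G.Colorable (C * G.cliqueNum ^ g)

theorem result (t : ℕ) :
    (∀ k : ℕ, ∃ c : ℕ, ∀ (V : Type) [Fintype V] (G : SimpleGraph V),
      IsEmpty (SimpleGraph.pathGraph t ↪g G) → ∀ w : ℕ, 2 ≤ w → G.cliqueNum ≤ w →
        ((w ^ c : ℕ) : ℕ∞) ≤ G.chromaticNumber → ∃ A B : Set V, Disjoint A B ∧
          G.chromaticNumber ≤ ((w ^ c : ℕ) : ℕ∞) * (G.induce A).chromaticNumber ∧
          G.chromaticNumber ≤ ((w ^ c : ℕ) : ℕ∞) * (G.induce B).chromaticNumber ∧
          ∀ b ∈ B, ((w ^ k : ℕ) : ℕ∞) *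
            (G.induce {a | a ∈ A ∧ ¬ G.Adj b a}).chromaticNumber ≤
              (G.induce A).chromaticNumber) ∧
    (∀ (W₁ W₂ : Type) (F₁ : SimpleGraph W₁) (F₂ : SimpleGraph W₂),
      PolyBounded t F₁ → PolyBounded t F₂ → PolyBounded t (F₁ᶜ ⊕g F₂ᶜ)ᶜ) ∧
    (∀ (W : Type) [Fintype W] (F : SimpleGraph W), IsEmpty (SimpleGraph.pathGraph 4 ↪g F) →
      PolyBounded t F) := by
  refine ⟨?_, ?_, ?_⟩
  · exact Pool.Agent.COG.pair_chrom t
  · intro W₁ W₂ F₁ F₂ h₁ h₂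
    exact Pool.Agent.COG.poly_join h₁ h₂
  · intro W _ F h4
    exact Pool.Agent.COG.poly_cograph t (Fintype.card W) W F le_rfl h4

end Pool.Agent.Results.MP_4fa23e_co.Cographs
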