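import Mathlib
import Pool.Agent.Helper20.Dense.TrivPerf

open Finset
open scoped Classical

namespace Pool.Agent.Results.MP_4fa23e_co.DisjointUnions

/-- The class of `{P_t, F}`-free graphs is polynomially chi-bounded: there are `C` and `g` such
that every finite graph `G` without an induced `P_t` and without an induced `F` satisfies
`χ(G) ≤ C ω(G) ^ g`. -/
def PolyBounded (t : ℕ) {W : Type} (F : SimpleGraph W) : Prop :=
  ∃ C g : ℕ, ∀ (V : Type) [Fintype V] (G : SimpleGraph V),
    IsEmpty (SimpleGraph.pathGraph t ↪g G) → IsEmpty (F ↪g G) →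
      G.Colorable (C * G.cliqueNum ^ g)

/-- The graph obtained from `F` by adding three vertices `a = inl 0`, `b = inl 1`, `c = inl 2`,
where `a - b - c` is an induced path, `c` is adjacent to all vertices of `F`, and `a`, `b` are
adjacent to no vertex of `F`. -/
def addTail {W : Type} (F : SimpleGraph W) : SimpleGraph (Fin 3 ⊕ W) where
  Adj x y := match x, y with
    | Sum.inl i, Sum.inl j => i.val + 1 = j.val ∨ j.val + 1 = i.val
    | Sum.inl i, Sum.inr _ => i = 2
    | Sum.inr _, Sum.inl i => i = 2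
    | Sum.inr a, Sum.inr b => F.Adj a b
  symm := ⟨by
    rintro (a | a) (b | b) h
    · exact h.symm
    · exact h
    · exact h
    · exact F.adj_symm h⟩
  loopless := ⟨by
    rintro (a | a) h
    · simp only at h
      omega
    · exact F.loopless.irrefl a h⟩

lemma lt_chromaticNumber_iff {V : Type} [Fintype V] (G : SimpleGraph V) (n : ℕ) :
    (n : ℕ∞) < G.chromaticNumber ↔ ¬ G.Colorable n := by
  rw [← SimpleGraph.chromaticNumber_le_iff_colorable, not_le]

theorem result (t : ℕ) :
    (∀ (V : Type) [Fintype V] (G : SimpleGraph V), IsEmpty (SimpleGraph.pathGraph t ↪g G) →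
      ∀ q : ℕ, 1 ≤ q →
        ((8 * 2 ^ (t * (t + 1)) * q * G.cliqueNum ^ (2 * (t + 1) ^ 2) : ℕ) : ℕ∞) <
          G.chromaticNumber →
        ∃ A B : Set V, Disjoint A B ∧ (∀ a ∈ A, ∀ b ∈ B, ¬ G.Adj a b) ∧
          (q : ℕ∞) < (G.induce A).chromaticNumber ∧ (q : ℕ∞) < (G.induce B).chromaticNumber) ∧
    (∀ (W₁ W₂ : Type) (F₁ : SimpleGraph W₁) (F₂ : SimpleGraph W₂),
      PolyBounded t F₁ → PolyBounded t F₂ → PolyBounded t (F₁ ⊕g F₂)) ∧
    (∀ (W : Type) (F : SimpleGraph W), PolyBounded t F → PolyBounded t (addTail F)) ∧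
    (∀ (W : Type) [Fintype W] (F : SimpleGraph W), IsEmpty (SimpleGraph.pathGraph 4 ↪g F) →
      IsEmpty (SimpleGraph.cycleGraph 4 ↪g F) → PolyBounded t F) := by
  refine ⟨?_, ?_, ?_, ?_⟩
  · intro V _ G hfree q hq hχ
    rcases Nat.eq_zero_or_pos t with ht0 | ht
    · subst ht0
      exact absurd hfree (Pool.Agent.Helper20.Dense.embedding_of_zero G)
    rw [lt_chromaticNumber_iff, ← Pool.Agent.Helper20.Dense.isCol_univ_iff,
      ← Pool.Agent.Helper20.Dense.chi_le_iff, not_le] at hχ
    by_contra hcon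
    have hno : ∀ A B : Finset V, Disjoint A B → (∀ a ∈ A, ∀ b ∈ B, ¬ G.Adj a b) →
        Pool.Agent.Helper20.Dense.chi G A ≤ q ∨ Pool.Agent.Helper20.Dense.chi G B ≤ q := by
      intro A B hAB hab
      by_contra h
      push Not at h
      apply hcon
      refine ⟨(A : Set V), (B : Set V), by exact_mod_cast hAB, fun a ha b hb => hab a ha b hb,
        ?_, ?_⟩
      · rw [lt_chromaticNumber_iff, ← Pool.Agent.Helper20.Dense.isCol_iff,
          ← Pool.Agent.Helper20.Dense.chi_le_iff, not_le]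
        exact h.1
      · rw [lt_chromaticNumber_iff, ← Pool.Agent.Helper20.Dense.isCol_iff,
          ← Pool.Agent.Helper20.Dense.chi_le_iff, not_le]
        exact h.2
    have h1 := Pool.Agent.Helper20.Dense.main_chi G ht hq hfree hno
    have h2 : (Pool.Agent.Helper20.Dense.om G Finset.univ) ^ ((2 * t + 2) * (t + 1)) ≤
        G.cliqueNum ^ ((2 * t + 2) * (t + 1)) :=
      Nat.pow_le_pow_left (Pool.Agent.Helper20.Dense.om_univ_le G) _
    have h3 : (2 * t + 2) * (t + 1) = 2 * (t + 1) ^ 2 := by ring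
    have h4 : (2 ^ (t + 1)) ^ t = 2 ^ (t * (t + 1)) := by
      rw [← pow_mul, mul_comm]
    rw [h3] at h2
    rw [h3, h4] at h1
    have h5 := h1.trans (Nat.mul_le_mul_left (8 * 2 ^ (t * (t + 1)) * q) h2)
    omega
  · intro W₁ W₂ F₁ F₂ h₁ h₂
    exact Pool.Agent.Helper20.Dense.poly_sum h₁ h₂
  · intro W F h
    exact Pool.Agent.Helper20.Dense.poly_lolli h
  · intro W _ F h4 hc4
    exact Pool.Agent.Helper20.Dense.poly_trivPerf t (Fintype.card W) W F le_rfl h4 hc4

end Pool.Agent.Results.MP_4fa23e_co.DisjointUnions
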