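import Mathlib
import Pool.Agent.Helper20.PathLB.Asymp

open Finset

namespace Pool.Agent.Results.MP_4fa23e_co.ExponentLowerBound

/-- pairs of non-consecutive numbers -/
def P (t : ℕ) : Finset (Fin t × Fin t) :=
  Finset.univ.filter (fun p => p.1.val + 1 < p.2.val)

lemma sum_sub_one (t : ℕ) : 2 * ∑ j ∈ Finset.range t, (j - 1) = (t - 1) * (t - 2) := by
  induction t with
  | zero => simp
  | succ t ih =>
    rw [Finset.sum_range_succ, mul_add, ih]
    rcases t with _ | _ | t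
    · simp
    · simp
    · simp only [Nat.add_sub_cancel]
      have h1 : t + 1 + 1 - 2 = t := by omega
      have h2 : t + 1 + 1 + 1 - 2 = t + 1 := by omega
      rw [h1, h2]
      ring

lemma card_P (t : ℕ) : 2 * (P t).card = (t - 1) * (t - 2) := by
  classical
  rw [← sum_sub_one t]
  congr 1
  have h1 : (P t).card = ∑ j : Fin t, (Finset.univ.filter (fun i : Fin t => i.val + 1 < j.val)).card := by
    have h2 := Finset.card_eq_sum_card_fiberwise (s := P t) (t := (Finset.univ : Finset (Fin t)))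
      (f := Prod.snd) (fun x _ => Finset.mem_univ _)
    rw [h2]
    refine Finset.sum_congr rfl (fun j _ => ?_)
    refine Finset.card_bij (fun p _ => p.1) ?_ ?_ ?_
    · intro p hp
      rw [Finset.mem_filter] at hp
      have h3 := (Finset.mem_filter.mp hp.1).2
      rw [hp.2] at h3
      exact Finset.mem_filter.mpr ⟨Finset.mem_univ _, h3⟩
    · intro p hp q hq hpq
      rw [Finset.mem_filter] at hp hq
      exact Prod.ext hpq (hp.2.trans hq.2.symm)
    · intro i hi
      refine ⟨(i, j), ?_, rfl⟩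
      rw [Finset.mem_filter]
      exact ⟨Finset.mem_filter.mpr ⟨Finset.mem_univ _, (Finset.mem_filter.mp hi).2⟩, rfl⟩
  rw [h1, ← Fin.sum_univ_eq_sum_range (fun j => j - 1) t]
  refine Finset.sum_congr rfl (fun j _ => ?_)
  have h3 : (Finset.univ.filter (fun i : Fin t => i.val + 1 < j.val)).map Fin.valEmbedding =
      Finset.range (j.val - 1) := by
    ext x
    simp only [Finset.mem_map, Finset.mem_filter, Finset.mem_univ, true_and, Fin.valEmbedding_apply,
      Finset.mem_range]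
    constructor
    · rintro ⟨i, hi, rfl⟩
      omega
    · intro hx
      exact ⟨⟨x, by omega⟩, by simp only; omega, rfl⟩
  rw [← Finset.card_map Fin.valEmbedding, h3, Finset.card_range]

lemma exponent_eq (t : ℕ) (ht : 6 ≤ t) :
    (((P t).card : ℝ) - 1) / ((t : ℝ) - 2) = (t : ℝ) * (t - 3) / (2 * (t - 2)) := by
  have h1 : (2 : ℝ) * ((P t).card : ℝ) = ((t : ℝ) - 1) * ((t : ℝ) - 2) := by
    have h2 : ((2 * (P t).card : ℕ) : ℝ) = (((t - 1) * (t - 2) : ℕ) : ℝ) := by rw [card_P]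
    push_cast [Nat.cast_sub (show 1 ≤ t by omega), Nat.cast_sub (show 2 ≤ t by omega)] at h2
    exact h2
  have h3 : (0 : ℝ) < (t : ℝ) - 2 := by
    have : (6 : ℝ) ≤ t := by exact_mod_cast ht
    linarith
  rw [div_eq_div_iff h3.ne' (by positivity)]
  have h4 : ((P t).card : ℝ) = ((t : ℝ) - 1) * ((t : ℝ) - 2) / 2 := by linarith
  rw [h4]
  ring

lemma indep_card {t n : ℕ} (G : SimpleGraph (Fin n))
    (hG : ∀ φ : Fin t ↪ Fin n, ∃ p ∈ P t, G.Adj (φ p.1) (φ p.2))
    (S : Finset (Fin n)) (hS : G.IsIndepSet (S : Set (Fin n))) : S.card < t := by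
  classical
  by_contra hcon
  push Not at hcon
  obtain ⟨S', hS'S, hS'⟩ := Finset.exists_subset_card_eq hcon
  obtain ⟨p, hp, hadj⟩ := hG (S'.orderEmbOfFin hS').toEmbedding
  have h1 : ∀ i, (S'.orderEmbOfFin hS').toEmbedding i ∈ (S : Set (Fin n)) := fun i =>
    hS'S (Finset.orderEmbOfFin_mem S' hS' i)
  exact hS (h1 p.1) (h1 p.2) hadj.ne hadj

lemma le_mul_of_colorable {t n m : ℕ} (G : SimpleGraph (Fin n))
    (hG : ∀ S : Finset (Fin n), G.IsIndepSet (S : Set (Fin n)) → S.card < t)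
    (hm : G.Colorable m) : n ≤ m * (t - 1) := by
  classical
  obtain ⟨col⟩ := hm
  have h1 := Finset.card_eq_sum_card_fiberwise (s := (Finset.univ : Finset (Fin n)))
    (t := (Finset.univ : Finset (Fin m))) (f := fun x => col x) (fun x _ => Finset.mem_univ _)
  rw [Finset.card_univ, Fintype.card_fin] at h1
  rw [h1]
  refine (Finset.sum_le_card_nsmul _ _ (t - 1) (fun i _ => ?_)).trans (le_of_eq ?_)
  · have h2 := hG (Finset.univ.filter (fun x => col x = i)) (by
      intro x hx y hy _ hadj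
      have h3 : col x = i := (Finset.mem_filter.mp hx).2
      have h4 : col y = i := (Finset.mem_filter.mp hy).2
      exact col.valid hadj (h3.trans h4.symm))
    omega
  · rw [Finset.card_univ, Fintype.card_fin, smul_eq_mul]

lemma colorable_one {n : ℕ} (G : SimpleGraph (Fin n)) (h : G.cliqueNum < 2) : G.Colorable 1 := by
  classical
  refine ⟨SimpleGraph.Coloring.mk (fun _ => (0 : Fin 1)) ?_⟩
  intro a b hab _
  have h1 : G.IsClique (({a, b} : Finset (Fin n)) : Set (Fin n)) := by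
    intro x hx y hy hxy
    simp only [Finset.coe_insert, Finset.coe_singleton, Set.mem_insert_iff,
      Set.mem_singleton_iff] at hx hy
    rcases hx with rfl | rfl <;> rcases hy with rfl | rfl
    · exact absurd rfl hxy
    · exact hab
    · exact hab.symm
    · exact absurd rfl hxy
  have h2 := h1.card_le_cliqueNum
  rw [Finset.card_pair hab.ne] at h2
  omega

/-- the family of `P_t`-free graphs -/
lemma family (t : ℕ) (ht : 6 ≤ t) :
    ∃ c : ℝ, 0 < c ∧ ∀ k : ℕ, 2 ≤ k → ∃ (n : ℕ) (G : SimpleGraph (Fin n)),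
      IsEmpty (SimpleGraph.pathGraph t ↪g G) ∧ G.cliqueNum ≤ k ∧
      (∀ S : Finset (Fin n), G.IsIndepSet (S : Set (Fin n)) → S.card < t) ∧
      ∀ m : ℕ, G.Colorable m →
        c * ((k : ℝ) / Real.log k) ^ ((t : ℝ) * (t - 3) / (2 * (t - 2))) ≤ m := by
  have hcard : 2 ≤ (P t).card := by
    have h1 := card_P t
    obtain ⟨s, rfl⟩ : ∃ s, t = s + 6 := ⟨t - 6, by omega⟩
    have h2 : (s + 6 - 1) * (s + 6 - 2) = (s + 5) * (s + 4) := rfl
    rw [h2] at h1
    nlinarith
  obtain ⟨c, hc, hfam⟩ := Pool.Agent.Helper20.PathLB.exists_family (v := t) (by omega) (P t)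
    (fun p hp => by
      have := (Finset.mem_filter.mp hp).2
      exact Fin.lt_def.mpr (by omega)) hcard
  rw [exponent_eq t ht] at hfam
  have ht1 : (0 : ℝ) < (t : ℝ) - 1 := by
    have : (6 : ℝ) ≤ t := by exact_mod_cast ht
    linarith
  refine ⟨c / ((t : ℝ) - 1), div_pos hc ht1, fun k hk => ?_⟩
  obtain ⟨n, G, hn, hG1, hG2, hG3⟩ := hfam k hk
  have hind := indep_card G hG1
  refine ⟨n, G, ⟨fun ψ => ?_⟩, ?_, hind, fun m hm => ?_⟩
  · obtain ⟨p, hp, hadj⟩ := hG1 ψ.toEmbedding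
    have h1 := (Finset.mem_filter.mp hp).2
    have h2 : (SimpleGraph.pathGraph t).Adj p.1 p.2 := ψ.map_adj_iff.mp hadj
    rw [SimpleGraph.pathGraph_adj] at h2
    omega
  · obtain ⟨W, hW⟩ := G.exists_isNClique_cliqueNum
    rw [← hW.card_eq]
    exact hG2 W hW.isClique
  · have h1 := le_mul_of_colorable G hind hm
    have h2 : (n : ℝ) ≤ (m : ℝ) * ((t : ℝ) - 1) := by
      have h3 : (n : ℝ) ≤ ((m * (t - 1) : ℕ) : ℝ) := by exact_mod_cast h1
      push_cast [Nat.cast_sub (show 1 ≤ t by omega)] at h3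
      exact h3
    rw [div_mul_eq_mul_div, div_le_iff₀ ht1]
    exact hG3.trans h2

/-- For `t ≥ 6` the smallest possible exponent in a polynomial bound for `P_t`-free graphs is
at least `t (t - 3) / (2 (t - 2))`. -/
theorem result (t : ℕ) (ht : 6 ≤ t) :
    (∃ c : ℝ, 0 < c ∧ ∀ k : ℕ, 2 ≤ k → ∃ (n : ℕ) (G : SimpleGraph (Fin n)),
      IsEmpty (SimpleGraph.pathGraph t ↪g G) ∧ G.cliqueNum ≤ k ∧
      (∀ S : Finset (Fin n), G.IsIndepSet (S : Set (Fin n)) → S.card < t) ∧
      ∀ m : ℕ, G.Colorable m →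
        c * ((k : ℝ) / Real.log k) ^ ((t : ℝ) * (t - 3) / (2 * (t - 2))) ≤ m) ∧
    (∀ C : ℝ, (∀ (n : ℕ) (G : SimpleGraph (Fin n)), IsEmpty (SimpleGraph.pathGraph t ↪g G) →
        2 ≤ G.cliqueNum → ∃ m : ℕ, G.Colorable m ∧ (m : ℝ) ≤ (G.cliqueNum : ℝ) ^ C) →
      (t : ℝ) * (t - 3) / (2 * (t - 2)) ≤ C) := by
  refine ⟨family t ht, fun C hC => ?_⟩
  by_contra hcon
  push Not at hcon
  obtain ⟨c, hc, hfam⟩ := family t ht
  set s : ℝ := (t : ℝ) * (t - 3) / (2 * (t - 2)) with hs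
  have ht6 : (6 : ℝ) ≤ t := by exact_mod_cast ht
  have hs0 : 0 < s := by
    rw [hs]
    apply div_pos
    · nlinarith
    · linarith
  set C' : ℝ := max C 0 with hC'
  have hC'0 : 0 ≤ C' := le_max_right _ _
  have hC's : C' < s := max_lt hcon hs0
  have hmain : ∀ k : ℕ, 2 ≤ k → c * ((k : ℝ) / Real.log k) ^ s ≤ (k : ℝ) ^ C' := by
    intro k hk
    obtain ⟨n, G, hfree, hω, _, hcol⟩ := hfam k hk
    have hk1 : (1 : ℝ) ≤ k := by exact_mod_cast (by omega : 1 ≤ k)
    by_cases h2 : 2 ≤ G.cliqueNum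
    · obtain ⟨m, hm, hmC⟩ := hC n G hfree h2
      have h3 : (1 : ℝ) ≤ (G.cliqueNum : ℝ) := by exact_mod_cast (by omega : 1 ≤ G.cliqueNum)
      calc c * ((k : ℝ) / Real.log k) ^ s ≤ m := hcol m hm
        _ ≤ (G.cliqueNum : ℝ) ^ C := hmC
        _ ≤ (G.cliqueNum : ℝ) ^ C' := Real.rpow_le_rpow_of_exponent_le h3 (le_max_left _ _)
        _ ≤ (k : ℝ) ^ C' := Real.rpow_le_rpow (by positivity) (by exact_mod_cast hω) hC'0
    · have h3 := hcol 1 (colorable_one G (by omega))
      push_cast at h3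
      exact h3.trans (Real.one_le_rpow hk1 hC'0)
  have hlo := (isLittleO_log_rpow_rpow_atTop s (sub_pos.mpr hC's)).bound
    (show (0 : ℝ) < c / 2 by positivity)
  have hlo' := tendsto_natCast_atTop_atTop (R := ℝ) |>.eventually hlo
  obtain ⟨N, hN⟩ := Filter.eventually_atTop.mp hlo'
  set k : ℕ := max N 2 with hk
  have hk2 : 2 ≤ k := le_max_right _ _
  have h1 := hN k (le_max_left _ _)
  have h2 := hmain k hk2
  have hkpos : (0 : ℝ) < k := by exact_mod_cast (by omega : 0 < k)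
  have hlog : 0 < Real.log k := Real.log_pos (by exact_mod_cast (by omega : 1 < k))
  rw [Real.norm_of_nonneg (by positivity), Real.norm_of_nonneg (by positivity)] at h1
  rw [Real.div_rpow hkpos.le hlog.le, ← mul_div_assoc, div_le_iff₀ (by positivity)] at h2
  have h3 : (k : ℝ) ^ C' * (Real.log k) ^ s ≤ (k : ℝ) ^ C' * (c / 2 * (k : ℝ) ^ (s - C')) :=
    mul_le_mul_of_nonneg_left h1 (by positivity)
  have h4 : (k : ℝ) ^ C' * (c / 2 * (k : ℝ) ^ (s - C')) = c / 2 * (k : ℝ) ^ s := by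
    have : (k : ℝ) ^ s = (k : ℝ) ^ C' * (k : ℝ) ^ (s - C') := by
      rw [← Real.rpow_add hkpos]
      congr 1
      ring
    rw [this]
    ring
  have h5 : 0 < c * (k : ℝ) ^ s := by positivity
  linarith

end Pool.Agent.Results.MP_4fa23e_co.ExponentLowerBound
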