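import Mathlib
import Pool.Agent.QPT.Main

/-! Quasi-polynomial chi-boundedness of the graphs without an induced path on `t` vertices, for
every `t` (MP_4fa23e_co). -/

namespace Pool.Agent.Results.MP_4fa23e_co.QuasiPolyAll

theorem log_le {x C : ℕ} (hx : 2 ≤ x) : C * (Nat.log 2 x + 1) ≤ 2 * C * Nat.log 2 x := by
  have h1 : 1 ≤ Nat.log 2 x := Nat.log_pos (by norm_num) hx
  nlinarith [Nat.mul_le_mul_left C h1]

/-- For every `t` there is a constant `C` such that every finite graph `G` without an induced path on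
`t` vertices and with clique number at least two satisfies `χ(G) ≤ ω(G) ^ (C ⌊log₂ ω(G)⌋)`. -/
theorem result (t : ℕ) : ∃ C : ℕ, ∀ (V : Type) [Fintype V] (G : SimpleGraph V),
    IsEmpty (SimpleGraph.pathGraph t ↪g G) → 2 ≤ G.cliqueNum →
      G.chromaticNumber ≤ ((G.cliqueNum ^ (C * Nat.log 2 G.cliqueNum) : ℕ) : ℕ∞) := by
  obtain ⟨C, hC⟩ := Pool.Agent.QPT.quasi_all t
  refine ⟨2 * C, ?_⟩
  intro V _ G hfree h2
  rw [SimpleGraph.chromaticNumber_le_iff_colorable]
  exact (hC V G hfree).mono (Nat.pow_le_pow_right (by omega) (log_le h2))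

end Pool.Agent.Results.MP_4fa23e_co.QuasiPolyAll
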